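import Pool.Agent.TH121.RW.HKMain

/-!
# MP_d037d4_ag: the p-adic weight-monodromy conjecture and the kernel of the monodromy operator

We consider the smooth projective varieties `Y` over finite extensions `K'` of `ℚ_p` with a projective
semistable model. `𝒯 : HyodoKatoTheory E` lists the data and the known facts which are used about their
Hyodo-Kato cohomology (with coefficients extended to an algebraic closure `E` of `ℚ_p`); no Lefschetz
theorem is among them. The following are equivalent:

1. Q1 holds for all `Y` and all `H ^ i` (and so for all smooth projective varieties, by alterations);
2. for all `Y` and `i` the weights of the kernel of `N` on `H ^ i` are at most `i`;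
3. for all `Y` and `i` the number `i + 1` is not a weight of the kernel of `N` on `H ^ i`;
4. for all `Y` of odd dimension `2 j - 1` there is no nonzero map from the unit `(φ, N)`-module to
  `H ^ (2 j - 1) (j)`: `φ x = p ^ j x` and `N x = 0` imply `x = 0`;
5. for all `Y` of odd dimension `2 j - 1` the extensions of the unit `(φ, N)`-module by
  `H ^ (2 j - 1) (j)` split.

For a single `Y` we show: Q1 holds for `Y`, in all degrees, if the weights of the kernel of `N` on
`H ^ (2 i)` of `Y × Y` are at most `2 i` for all `i`, and so if the `p`-adic local invariant cycle
theorem holds in even degrees for a semistable model of `Y × Y`, that is, if the map from the rigid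
cohomology of its special fibre to the kernel of `N` is surjective.

The proof is by products with powers of elliptic curves with split multiplicative reduction, with
projective lines and with abelian varieties with good reduction (Honda-Tate), and by vectors killed by
`N` in the tensor product of `H ^ i` with itself.
-/

universe u v

namespace Pool.Agent.Results.MP_d037d4_ag.CrystallineInvariants

open Pool.Agent.TH121.RW

/-- **The p-adic weight-monodromy conjecture and the kernel of the monodromy operator.** -/
theorem result {E : Type u} [Field E] [CharZero E] [IsAlgClosed E] (hE : Nonempty (E →+* ℂ))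
    (𝒯 : HyodoKatoTheory.{u, v} E) :
    [𝒯.MonodromyWeight, 𝒯.WeightsAtMost, 𝒯.NextWeightMissing, 𝒯.NoGaloisInvariants,
      𝒯.NoGaloisCohomology].TFAE ∧
    (∀ X, 𝒯.SquareWeightsAtMost X → 𝒯.QOneFor X) ∧
    (∀ X, (∀ i, 𝒯.LocalInvariantCycles (𝒯.square X) (i + i)) → 𝒯.QOneFor X) :=
  HyodoKatoTheory.main 𝒯 hE

end Pool.Agent.Results.MP_d037d4_ag.CrystallineInvariants
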