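import Mathlib
import Pool.Agent.TH131.WMF.HK

/-!
# The p-adic weight-monodromy conjecture in large residue characteristic

For all `n` and `d` there is an integer `M > 0` such that the `p`-adic weight-monodromy conjecture
for Hyodo–Kato cohomology holds for all smooth closed subschemes `X` of degree at most `d` of
`ℙ^n_K`, for all finite extensions `K` of the fields `ℚ_p` with `p` not dividing `M`, and for
`H^w_HK(X)` for all `w`.

* `F`, `hh`: a log smooth family which contains all these varieties over finite extensions of the
  fields of definition, and Hodge theory in characteristic `0`.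
* `𝒮`, `hc`, `hw`: the varieties, the comparison of their Hyodo–Kato cohomology with the log de Rham
  cohomology of a lift of the special fibre, and the Weil conjectures.
-/

set_option autoImplicit false

namespace Pool.Agent.Results.MP_d037d4_ag.LargeResidueCharacteristic

open Pool.Agent.TH131.WMF

/-- The `p`-adic weight-monodromy conjecture holds for the smooth projective varieties of degree at
most `d` over `p`-adic fields for all sufficiently large `p`. -/
theorem result {F : LogDeRham} (hh : F.HodgeTheory) (𝒮 : HyodoKato F) (hc : 𝒮.Comparison)
    (hw : 𝒮.WeilConjectures) :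
    ∃ M : ℕ, 0 < M ∧ ∀ X : 𝒮.Obj, ¬ 𝒮.p X ∣ M → ∀ w, 𝒮.MWPure X w :=
  ⟨𝒮.M₀, 𝒮.M₀_pos, fun X hX w => 𝒮.mwPure hh hc hw X hX w⟩

end Pool.Agent.Results.MP_d037d4_ag.LargeResidueCharacteristic
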