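import Pool.Agent.TH131.PCub.Gates

/-!
# The p-adic weight-monodromy conjecture and complements of arrangements of quadrics and hyperplanes
with coefficients 0, 1, -1
-/

set_option autoImplicit false

open CategoryTheory AlgebraicGeometry

namespace Pool.Agent.Results.MP_d037d4_ag.QuadricComplements

open Pool.Agent.TH90.Cub Pool.Agent.TH590.JH Pool.Agent.TH131.Near Pool.Agent.TH131.WCub
  Pool.Agent.TH131.PCub

/-- **The `p`-adic weight-monodromy conjecture and complements of quadrics and hyperplanes.** Let `p`
be a prime. The weight-monodromy conjecture for the Hyodo-Kato cohomology of all smooth projective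
varieties over all finite extensions of `ℚ_p` holds if and only if, for all complements `U` in affine
spaces `𝔸^n` over `ℚ` of finite unions of hypersurfaces with equations `x_a x_b = x_c`,
`x_a + x_b = x_c`, `x_a = 1`, and for all `j` and all `w ≥ 3`, the graded piece of weight `w` of the
Hyodo-Kato cohomology with compact supports `H_c^j(U)` is pure of weight `w`. These `U` are smooth
over `ℚ`. -/
theorem result {K : Nat.Primes → Type} [∀ p, Field (K p)] (T : PAdic K) (L : LocalVarieties T)
    (hres : Resolution) (p : Nat.Primes) (hlow : T.LowDegrees p) :
    (L.MonodromyWeight p ↔ T.PureOnComplements p) ∧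
    (∀ (n : ℕ) (h : MvPolynomial (Fin n) ℚ), Smooth (str ℚ (Localization.Away h))) := by
  refine ⟨main_complements T L hres p hlow, fun n h => ?_⟩
  have : Algebra.Smooth ℚ (MvPolynomial (Fin n) ℚ) := smooth_mv ℚ n
  exact away_smooth_scheme ℚ _ h

end Pool.Agent.Results.MP_d037d4_ag.QuadricComplements
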